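import Mathlib
import Pool.Agent.Y203.QC.Mach
import Pool.Agent.Helper961.Aub.ZCm

/-!
The slots realise the conditional move (machine with borrow); port of
`Pool.Agent.Helper961.Aub.ZCm`.
-/

set_option autoImplicit false

open Set Filter Topology MeasureTheory

namespace Pool.Agent.Y203.QC

open Pool.Agent.Aub (mm lam Stk dt stp Sc S1 S2 Qx gT gt cT ct hC hX Dg Ty stg rho mu posn peel cE cF
  DD rb subTy subP subC sub broken Clamp Ix Zs stk reg mkz Wt f0 f1 f4 f6 g0 g1 M0 M4 M6 N1 tyj pj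
  Z05_stp Z05_mm Z05_sum Z05_Sc Z05_S1 Z05_S2 Z05_Qx Z05_mul Z05_mulB Z05_sub Z05_gT Z05_gt Z05_cT
  Z05_ct Z05_Wt Z05_shear Z05_mk_inl Z05_mk_inr Z05_stk_mk Z05_reg_mk Z05_mk_eta Z05_stk_add
  Z05_reg_add Z05_f1_shear Z05_abs Z05_vec5 Z05_f1_bd Z05_slot0 Z05_exp_le Z05_slot4 Z05_slot6
  Z05_stk_f1 Z05_add_bd)

theorem ZC_bb : (bb : ℝ) = 4095 := by norm_num [bb]

theorem ZC_Sg (t : ℝ) : |Sg t| ≤ 1 := by
  unfold Sg
  have h1 := Z05_Sc t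
  have h2 := Z05_Sc (-t)
  rw [abs_le]
  constructor <;> linarith [h1.1, h1.2, h2.1, h2.2]

theorem ZC_bT (a b : ℝ) : 0 ≤ bT a b ∧ bT a b ≤ 1 :=
  Z05_mul (Z05_stp _ _ _) (Z05_sub (Z05_stp _ _ _))
theorem ZC_bt (a b : ℝ) : 0 ≤ bt a b ∧ bt a b ≤ 1 :=
  Z05_mul (Z05_stp _ _ _) (Z05_sub (Z05_stp _ _ _))

theorem ZC_f2_shear (d : Fin 3) (z : Zs) (u : ℝ) : f2 d (z + u • f2 d z) = f2 d z := by
  have h : ∀ i tr, stk (z + u • f2 d z) i tr = stk z i tr := by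
    intro i tr
    rw [Z05_stk_add]
    simp [f2, Z05_stk_mk]
  have h1 : reg (z + u • f2 d z) 1 = reg z 1 := by
    rw [Z05_reg_add]
    simp [f2, Z05_reg_mk]
  have h6 : reg (z + u • f2 d z) 6 = reg z 6 := by
    rw [Z05_reg_add]
    simp [f2, Z05_reg_mk]
  unfold f2 at *
  simp only [h, h1, h6]

theorem ZC_f3_shear (b : Bool) (s d : Fin 3) (z : Zs) (u : ℝ) :
    f3 b s d (z + u • f3 b s d z) = f3 b s d z := by
  have h : ∀ k, reg (z + u • f3 b s d z) k = reg z k := by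
    intro k
    rw [Z05_reg_add]
    simp [f3, Z05_reg_mk]
  have hW : Wt b (z + u • f3 b s d z) = Wt b z := by
    unfold Wt; rw [h]
  unfold f3 at *
  simp only [h, hW]

theorem ZC_f5_shear (b : Bool) (d : Fin 3) (r : ℝ) (z : Zs) (u : ℝ) :
    f5 b d r (z + u • f5 b d r z) = f5 b d r z := by
  have h : ∀ k, reg (z + u • f5 b d r z) k = reg z k := by
    intro k
    rw [Z05_reg_add]
    simp [f5, Z05_reg_mk]
  have hW : Wt b (z + u • f5 b d r z) = Wt b z := by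
    unfold Wt; rw [h]
  unfold f5 pushed at *
  simp only [h, hW]

theorem ZC_diff {w a b c d : ℝ} (hw : 0 ≤ w ∧ w ≤ 1) (ha : 0 ≤ a ∧ a ≤ 1) (hb : 0 ≤ b ∧ b ≤ 1)
    (hc : 0 ≤ c ∧ c ≤ 1) (hd : 0 ≤ d ∧ d ≤ 1) : |w * (a * b - c * d)| ≤ 4096 := by
  have h1 := Z05_mul ha hb
  have h2 := Z05_mul hc hd
  rw [abs_mul, abs_of_nonneg hw.1]
  have h3 : |a * b - c * d| ≤ 1 := by
    rw [abs_le]
    constructor <;> linarith [h1.1, h1.2, h2.1, h2.2]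
  calc w * |a * b - c * d| ≤ 1 * 1 :=
        mul_le_mul hw.2 h3 (abs_nonneg _) zero_le_one
    _ ≤ 4096 := by norm_num

theorem ZC_f2_bd (d : Fin 3) (z : Zs) (i : Ix) : |f2 d z i| ≤ 4096 := by
  rcases i with ⟨i, tr⟩ | k
  · simp [f2, Z05_mk_inl]
  · simp only [f2, Z05_mk_inr]
    fin_cases k
    any_goals (simp; done)
    · exact ZC_diff (Z05_sub (Z05_Sc _)) (Z05_gT _) (Z05_cT _ _) (Z05_gt _) (ZC_bt _ _)
    · exact ZC_diff (Z05_sub (Z05_Sc _)) (Z05_gt _) (Z05_ct _ _) (Z05_gT _) (ZC_bT _ _)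

theorem ZC_f3_bd (b : Bool) (s d : Fin 3) (z : Zs) (i : Ix) : |f3 b s d z i| ≤ 4096 := by
  rcases i with ⟨i, tr⟩ | k
  · simp only [f3, Z05_mk_inl]
    split_ifs with h1 h2
    · rw [abs_neg]
      apply Z05_abs
      apply Z05_mulB (Z05_Wt b z)
      have hS : ∀ t, 0 ≤ Sc t ∧ Sc t ≤ 4096 := fun t =>
        ⟨(Z05_Sc t).1, (Z05_Sc t).2.trans (by norm_num)⟩
      exact Z05_vec5 (hS _) (hS _) (Z05_Qx _) (Z05_Qx _) (Z05_Qx _) tr
    · rw [abs_neg, abs_mul, abs_mul, ZC_bb, abs_of_nonneg (Z05_Wt b z).1]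
      have h3 := ZC_Sg (reg z 10)
      have h4 : |(4095 : ℝ)| = 4095 := abs_of_pos (by norm_num)
      rw [h4]
      calc Wt b z * (4095 * |Sg (reg z 10)|) ≤ 1 * (4095 * 1) :=
            mul_le_mul (Z05_Wt b z).2 (mul_le_mul_of_nonneg_left h3 (by norm_num))
              (mul_nonneg (by norm_num) (abs_nonneg _)) zero_le_one
        _ ≤ 4096 := by norm_num
    · simp
  · simp [f3, Z05_mk_inr]

theorem ZC_f5_bd (b : Bool) (d : Fin 3) (r : ℝ) (z : Zs) (i : Ix) : |f5 b d r z i| ≤ 4096 := by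
  rcases i with ⟨i, tr⟩ | k
  · simp only [f5, Z05_mk_inl]
    split_ifs with h1
    · apply Z05_abs
      apply Z05_mulB (Z05_Wt b z)
      have hS : ∀ t, 0 ≤ 1 - Sc t ∧ 1 - Sc t ≤ 4096 := fun t =>
        ⟨(Z05_sub (Z05_Sc t)).1, (Z05_sub (Z05_Sc t)).2.trans (by norm_num)⟩
      have hS2 : ∀ t t', 0 ≤ (1 - Sc t) * (1 - Sc t') ∧ (1 - Sc t) * (1 - Sc t') ≤ 4096 :=
        fun t t' =>
        ⟨(Z05_mul (Z05_sub (Z05_Sc t)) (Z05_sub (Z05_Sc t'))).1,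
          (Z05_mul (Z05_sub (Z05_Sc t)) (Z05_sub (Z05_Sc t'))).2.trans (by norm_num)⟩
      exact Z05_vec5 (hS _) (hS2 _ _) (Z05_Qx _) (Z05_Qx _) (Z05_Qx _) tr
    · simp
  · simp [f5, Z05_mk_inr]

theorem ZC_stk_f2 (d : Fin 3) (z : Zs) (i : Fin 3) (tr : Fin 5) :
    stk (z + f2 d z) i tr = stk z i tr := by
  show z (Sum.inl (i, tr)) + f2 d z (Sum.inl (i, tr)) = _
  simp [f2, Z05_mk_inl, stk]

theorem ZC_reg_f3 (b : Bool) (s d : Fin 3) (z : Zs) (k : Fin 12) :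
    reg (z + f3 b s d z) k = reg z k := by
  show z (Sum.inr k) + f3 b s d z (Sum.inr k) = _
  simp [f3, Z05_mk_inr, reg]

/-- TARGET -/
theorem cm_reach (cc : Clamp (5/4)) (cx : Clamp (mm + 1/2)) (b : Bool) (s d : Fin 3)
    (hsd : s ≠ d) (r : ℝ) (z : Zs) (hS : ∀ i tr, |stk z i tr| ≤ 2 ^ 32)
    (hR : ∀ k, |reg z k| ≤ 2) :
    ∃ c : Fin 8 → Zs, c 0 = z ∧ c 7 = cm cc cx b s d r z ∧ ∀ j : Fin 7, ∃ ζ : ℝ → Zs,
      ζ 0 = c j.castSucc ∧ ζ 1 = c j.succ ∧ ∀ u ∈ Icc (0 : ℝ) 1,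
        HasDerivAt ζ ((![f0 cc cx s d, f1 s d, f2 d, f3 b s d, f4 b s d, f5 b d r, f6] :
          Fin 7 → Zs → Zs) j (ζ u)) u ∧ ∀ i, |ζ u i| ≤ 2 ^ 38 := by
  have hmm := Z05_mm
  obtain ⟨z0, hz0⟩ : ∃ w, w = M0 cc cx s d z := ⟨_, rfl⟩
  obtain ⟨z1, hz1⟩ : ∃ w, w = z0 + f1 s d z0 := ⟨_, rfl⟩
  obtain ⟨z2, hz2⟩ : ∃ w, w = z1 + f2 d z1 := ⟨_, rfl⟩
  obtain ⟨z3, hz3⟩ : ∃ w, w = z2 + f3 b s d z2 := ⟨_, rfl⟩
  obtain ⟨z4, hz4⟩ : ∃ w, w = M4 b s d z3 := ⟨_, rfl⟩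
  obtain ⟨z5, hz5⟩ : ∃ w, w = z4 + f5 b d r z4 := ⟨_, rfl⟩
  have hcm : cm cc cx b s d r z = M6 z5 := by
    subst hz5 hz4 hz3 hz2 hz1 hz0
    rfl
  -- bounds
  have hS0 : ∀ i tr, |stk z0 i tr| ≤ 2 ^ 32 := by
    intro i tr
    rw [hz0, M0, Z05_stk_mk]
    split_ifs with h1 h2
    · obtain ⟨h3, h4⟩ := cc.rng _ (hS i tr)
      rw [abs_le]; constructor <;> linarith
    · obtain ⟨h3, h4⟩ := cx.rng _ (hS i tr)
      rw [abs_le]; constructor <;> linarith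
    · exact hS i tr
  have hS0s : ∀ tr, |stk z0 s tr| ≤ 2 ^ 13 := by
    intro tr
    rw [hz0, M0, Z05_stk_mk, if_pos (Or.inl rfl)]
    split_ifs with h2
    · obtain ⟨h3, h4⟩ := cc.rng _ (hS s tr)
      rw [abs_le]; constructor <;> linarith
    · obtain ⟨h3, h4⟩ := cx.rng _ (hS s tr)
      rw [abs_le]; constructor <;> linarith
  have hR0 : ∀ k, |reg z0 k| ≤ 2 := by
    intro k
    rw [hz0, M0, Z05_reg_mk]
    exact hR k
  have hR1 : ∀ k, |reg z1 k| ≤ 2 + 4096 := by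
    intro k
    rw [hz1]
    exact Z05_add_bd (hR0 k) (Z05_f1_bd s d z0 _)
  have hS1 : ∀ i tr, stk z1 i tr = stk z0 i tr := fun i tr => by
    rw [hz1]; exact Z05_stk_f1 s d z0 i tr
  have hR2 : ∀ k, |reg z2 k| ≤ 2 + 4096 + 4096 := by
    intro k
    rw [hz2]
    exact Z05_add_bd (hR1 k) (ZC_f2_bd d z1 _)
  have hS2 : ∀ i tr, stk z2 i tr = stk z0 i tr := fun i tr => by
    rw [hz2, ZC_stk_f2]; exact hS1 i tr
  have hR3 : ∀ k, |reg z3 k| ≤ 2 + 4096 + 4096 := by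
    intro k
    rw [hz3, ZC_reg_f3]
    exact hR2 k
  have hS3 : ∀ i tr, |stk z3 i tr| ≤ 2 ^ 32 + 4096 := by
    intro i tr
    rw [hz3]
    have := hS0 i tr
    rw [← hS2] at this
    exact Z05_add_bd this (ZC_f3_bd b s d z2 _)
  have hS3s : ∀ tr, |stk z3 s tr| ≤ 2 ^ 13 + 4096 := by
    intro tr
    rw [hz3]
    have := hS0s tr
    rw [← hS2] at this
    exact Z05_add_bd this (ZC_f3_bd b s d z2 _)
  have hR4 : ∀ k, |reg z4 k| ≤ 2 + 4096 + 4096 := by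
    intro k
    rw [hz4, M4, Z05_reg_mk]
    exact hR3 k
  have hS4 : ∀ i tr, |stk z4 i tr| ≤ 2 ^ 33 := by
    intro i tr
    rw [hz4, M4, Z05_stk_mk]
    obtain ⟨he1, he2⟩ := Z05_exp_le (Z05_Wt b z3) (u := 1) ⟨zero_le_one, le_refl _⟩
    rw [one_mul] at he1 he2
    split_ifs with h1 h2
    · rw [abs_mul, abs_of_pos (Real.exp_pos _), h1]
      calc _ ≤ (131072 : ℝ) * (2 ^ 13 + 4096) :=
            mul_le_mul he1 (hS3s tr) (abs_nonneg _) (by norm_num)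
        _ ≤ 2 ^ 33 := by norm_num
    · rw [abs_mul, abs_of_pos (Real.exp_pos _)]
      calc _ ≤ (1 : ℝ) * (2 ^ 32 + 4096) :=
            mul_le_mul he2 (hS3 i tr) (abs_nonneg _) (by norm_num)
        _ ≤ 2 ^ 33 := by norm_num
    · exact (hS3 i tr).trans (by norm_num)
  have hz0b : ∀ i, |z0 i| ≤ 2 ^ 34 := by
    rintro (⟨i, tr⟩ | k)
    · exact (hS0 i tr).trans (by norm_num)
    · exact (hR0 k).trans (by norm_num)
  have hz1b : ∀ i, |z1 i| ≤ 2 ^ 34 := by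
    rintro (⟨i, tr⟩ | k)
    · have := hS0 i tr
      rw [← hS1] at this
      exact this.trans (by norm_num)
    · exact (hR1 k).trans (by norm_num)
  have hz2b : ∀ i, |z2 i| ≤ 2 ^ 34 := by
    rintro (⟨i, tr⟩ | k)
    · have := hS0 i tr
      rw [← hS2] at this
      exact this.trans (by norm_num)
    · exact (hR2 k).trans (by norm_num)
  have hz4b : ∀ i, |z4 i| ≤ 2 ^ 34 := by
    rintro (⟨i, tr⟩ | k)
    · exact (hS4 i tr).trans (by norm_num)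
    · exact (hR4 k).trans (by norm_num)
  have hz5b : ∀ i, |z5 i| ≤ 2 ^ 38 := by
    intro i
    rw [hz5]
    exact (Z05_add_bd (hz4b i) (ZC_f5_bd b d r z4 i)).trans (by norm_num)
  -- the slots
  have H0 := Z05_slot0 cc cx s d z hS hR
  rw [← hz0] at H0
  have H1 := Z05_shear (f1 s d) z0 (Z05_f1_shear s d z0) _ _ hz0b (Z05_f1_bd s d z0) (by norm_num)
  rw [← hz1] at H1
  have H2 := Z05_shear (f2 d) z1 (ZC_f2_shear d z1) _ _ hz1b (ZC_f2_bd d z1) (by norm_num)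
  rw [← hz2] at H2
  have H3 := Z05_shear (f3 b s d) z2 (ZC_f3_shear b s d z2) _ _ hz2b (ZC_f3_bd b s d z2)
    (by norm_num)
  rw [← hz3] at H3
  have H4 := Z05_slot4 b s d z3 (fun i tr => (hS3 i tr).trans (by norm_num))
    (fun tr => (hS3s tr).trans (by norm_num)) (fun k => (hR3 k).trans (by norm_num))
  rw [← hz4] at H4
  have H5 := Z05_shear (f5 b d r) z4 (ZC_f5_shear b d r z4) _ _ hz4b (ZC_f5_bd b d r z4)
    (by norm_num)
  rw [← hz5] at H5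
  have H6 := Z05_slot6 z5 hz5b
  refine ⟨![z, z0, z1, z2, z3, z4, z5, M6 z5], rfl, hcm.symm, ?_⟩
  intro j
  fin_cases j
  · exact H0
  · exact H1
  · exact H2
  · exact H3
  · exact H4
  · exact H5
  · exact H6

end Pool.Agent.Y203.QC
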