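import Mathlib
import Pool.Agent.Y203.QC.Mach
import Pool.Agent.Helper961.Aub.ZTick
import Pool.Agent.Y256.QC.ZCm
import Pool.Agent.Y350.QC.XReg

/-!
The slots realise one tick (machine with borrow); port of `Pool.Agent.Helper961.Aub.ZTick`.
-/

set_option autoImplicit false

open Set Filter Topology MeasureTheory

namespace Pool.Agent.Y203.QC

open Pool.Agent.Aub (mm lam Stk dt stp Sc S1 S2 Qx gT gt cT ct hC hX Dg Ty stg rho mu posn peel cE cF
  DD rb subTy subP subC sub broken Clamp Ix Zs stk reg mkz Wt f0 f1 f4 f6 g0 g1 M0 M4 M6 N1 tyj pj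
  Z06_Sc Z06_add Z06_g0 Z06_bd)

/-- TARGET -/
theorem tick_reach (cc : Clamp (5/4)) (cx : Clamp (mm + 1/2)) (ty : Ty) (p : Fin 3)
    (r : ℝ) (z : Zs) (hS : ∀ i tr, |stk z i tr| ≤ 2 ^ 32) (hR : ∀ k, |reg z k| ≤ 1/16) :
    ∃ c : ℕ → Zs, c 0 = z ∧ c 16 = tick cc cx ty p r z ∧ ∀ j : Fin 16, ∃ ζ : ℝ → Zs,
      ζ 0 = c j ∧ ζ 1 = c (j + 1) ∧ ∀ u ∈ Icc (0 : ℝ) 1,
        HasDerivAt ζ (slotf cc cx ty p r j (ζ u)) u ∧ ∀ i, |ζ u i| ≤ 2 ^ 38 := by
  obtain ⟨a, ha0, ha1, hg⟩ := Z06_g0 ty p z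
  have hadd := fun u : ℝ => Z06_add z (g0 ty p z) _ u hg
  have hne1 : p - 1 ≠ p + 1 := by fin_cases p <;> decide
  have hne2 : p + 1 ≠ p - 1 := hne1.symm
  -- first point
  set z1 : Zs := z + g0 ty p z with hz1
  have hz1' : z1 = z + (1 : ℝ) • g0 ty p z := by rw [one_smul]
  have hS1 : ∀ i tr, |stk z1 i tr| ≤ 2 ^ 32 := by
    intro i tr
    rw [hz1', (hadd 1).1]
    exact hS i tr
  have hR10 : |reg z1 0| ≤ 17 / 16 := by
    rw [hz1', (hadd 1).2, if_pos rfl, one_mul]
    refine (abs_add_le _ _).trans ?_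
    rw [abs_of_nonneg ha0]
    have := hR 0
    linarith
  have hR1 : ∀ k, k ≠ 0 → |reg z1 k| ≤ 1 / 16 := by
    intro k hk
    rw [hz1', (hadd 1).2, if_neg hk, mul_zero, add_zero]
    exact hR k
  have hR1' : ∀ k, |reg z1 k| ≤ 2 := by
    intro k
    by_cases hk : k = 0
    · rw [hk]; linarith
    · have := hR1 k hk; linarith
  obtain ⟨cA, hA0, hA7, hA⟩ := cm_reach cc cx true (p - 1) (p + 1) hne1
    (if ty = Ty.E then r else 0) z1 hS1 hR1'
  set z8 : Zs := cm cc cx true (p - 1) (p + 1) (if ty = Ty.E then r else 0) z1 with hz8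
  have hB1 := cm_bound cc cx true (p - 1) (p + 1) hne1 (if ty = Ty.E then r else 0) z1 hS1
  have hG1 := cm_reg cc cx true (p - 1) (p + 1) hne1 (if ty = Ty.E then r else 0) z1 hR1
  rw [← hz8] at hB1 hG1
  have hS8 : ∀ i tr, |stk z8 i tr| ≤ 2 ^ 32 := by
    intro i tr
    by_cases hi : i = p - 1 ∨ i = p + 1
    · exact (hB1.1 i tr hi).trans (by norm_num)
    · rw [not_or] at hi
      rw [hB1.2 i tr hi.1 hi.2]
      exact hS1 i tr
  have hR80 : |reg z8 0| ≤ 17 / 16 := by rw [hG1.1]; exact hR10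
  have hR8 : ∀ k, k ≠ 0 → |reg z8 k| ≤ 1 / 16 := fun k hk =>
    (hG1.2 k hk).trans (by norm_num)
  have hR8' : ∀ k, |reg z8 k| ≤ 2 := by
    intro k
    by_cases hk : k = 0
    · rw [hk]; linarith
    · have := hR8 k hk; linarith
  obtain ⟨cB, hC0, hC7, hC⟩ := cm_reach cc cx false (p + 1) (p - 1) hne2 0 z8 hS8 hR8'
  set z15 : Zs := cm cc cx false (p + 1) (p - 1) 0 z8 with hz15
  have hB2 := cm_bound cc cx false (p + 1) (p - 1) hne2 0 z8 hS8
  have hG2 := cm_reg cc cx false (p + 1) (p - 1) hne2 0 z8 hR8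
  rw [← hz15] at hB2 hG2
  have hS15 : ∀ i tr, |stk z15 i tr| ≤ 2 ^ 32 := by
    intro i tr
    by_cases hi : i = p + 1 ∨ i = p - 1
    · exact (hB2.1 i tr hi).trans (by norm_num)
    · rw [not_or] at hi
      rw [hB2.2 i tr hi.1 hi.2]
      exact hS8 i tr
  have hR150 : |reg z15 0| ≤ 17 / 16 := by rw [hG2.1]; exact hR80
  have hR15 : ∀ k, k ≠ 0 → |reg z15 k| ≤ 1 / 16 := fun k hk =>
    (hG2.2 k hk).trans (by norm_num)
  -- slot 0
  have hs0 : ∃ ζ : ℝ → Zs, ζ 0 = z ∧ ζ 1 = cA 0 ∧ ∀ u ∈ Icc (0 : ℝ) 1,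
      HasDerivAt ζ (g0 ty p (ζ u)) u ∧ ∀ i, |ζ u i| ≤ 2 ^ 38 := by
    refine ⟨fun u => z + u • g0 ty p z, by simp, by rw [hA0, hz1]; simp, fun u hu => ⟨?_, ?_⟩⟩
    · have e : g0 ty p (z + u • g0 ty p z) = g0 ty p z := by
        conv_lhs => rw [g0]
        rw [(hadd u).1]
        rfl
      have h1 : HasDerivAt (fun u : ℝ => z + u • g0 ty p z) (g0 ty p z) u := by
        simpa using ((hasDerivAt_id u).smul_const (g0 ty p z)).const_add z
      show HasDerivAt (fun u : ℝ => z + u • g0 ty p z) (g0 ty p (z + u • g0 ty p z)) u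
      rw [e]
      exact h1
    · refine Z06_bd _ _ (fun i tr => ?_) (fun k => ?_)
      · show |stk (z + u • g0 ty p z) i tr| ≤ _
        rw [(hadd u).1]
        exact (hS i tr).trans (by norm_num)
      · show |reg (z + u • g0 ty p z) k| ≤ _
        rw [(hadd u).2]
        refine (abs_add_le _ _).trans ?_
        have h1 := hR k
        have h2 : |u * (if k = 0 then a else 0)| ≤ 1 := by
          split_ifs
          · rw [abs_of_nonneg (mul_nonneg hu.1 ha0)]
            have := hu.2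
            nlinarith [hu.1]
          · simp
        have h3 : (2 : ℝ) ^ 38 ≥ 2 := by norm_num
        linarith
  -- slot 15
  have hs15 : ∃ ζ : ℝ → Zs, ζ 0 = cB 7 ∧ ζ 1 = N1 (cB 7) ∧ ∀ u ∈ Icc (0 : ℝ) 1,
      HasDerivAt ζ (g1 (ζ u)) u ∧ ∀ i, |ζ u i| ≤ 2 ^ 38 := by
    rw [hC7]
    refine ⟨fun u => mkz (stk z15) (fun k => if k = 0 then Real.exp (-16 * u) * reg z15 0
      else reg z15 k), ?_, ?_, fun u hu => ⟨?_, ?_⟩⟩
    · funext i
      rcases i with ⟨i, tr⟩ | k
      · rfl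
      · show (if k = 0 then Real.exp (-16 * 0) * reg z15 0 else reg z15 k) = reg z15 k
        by_cases hk : k = 0
        · simp [hk]
        · simp [hk]
    · show mkz (stk z15) (fun k => if k = 0 then Real.exp (-16 * 1) * reg z15 0
        else reg z15 k) = N1 z15
      rw [N1, mul_one]
    · rw [hasDerivAt_pi]
      intro i
      rcases i with ⟨i, tr⟩ | k
      · exact hasDerivAt_const u (stk z15 i tr)
      · show HasDerivAt (fun u => if k = 0 then Real.exp (-16 * u) * reg z15 0 else reg z15 k)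
          (if k = 0 then -16 * (if (0 : Fin 12) = 0 then Real.exp (-16 * u) * reg z15 0
            else reg z15 0) else 0) u
        by_cases hk : k = 0
        · simp only [hk, if_true]
          have h1 : HasDerivAt (fun u : ℝ => -16 * u) (-16) u := by
            simpa using (hasDerivAt_id u).const_mul (-16 : ℝ)
          have h2 := h1.exp.mul_const (reg z15 0)
          refine h2.congr_deriv ?_
          ring
        · simp only [hk, if_false]
          exact hasDerivAt_const u _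
    · refine Z06_bd _ _ (fun i tr => ?_) (fun k => ?_)
      · exact (hS15 i tr).trans (by norm_num)
      · show |if k = 0 then Real.exp (-16 * u) * reg z15 0 else reg z15 k| ≤ _
        have h3 : (2 : ℝ) ^ 38 ≥ 2 := by norm_num
        by_cases hk : k = 0
        · simp only [hk, if_true]
          rw [abs_mul, abs_of_pos (Real.exp_pos _)]
          have h4 : Real.exp (-16 * u) ≤ 1 := by
            rw [Real.exp_le_one_iff]
            have := hu.1
            linarith
          have h5 : 0 ≤ |reg z15 0| := abs_nonneg _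
          have h6 : Real.exp (-16 * u) * |reg z15 0| ≤ 1 * |reg z15 0| :=
            mul_le_mul_of_nonneg_right h4 h5
          linarith
        · simp only [hk, if_false]
          have := hR15 k hk
          linarith
  refine ⟨fun n => ([z, cA 0, cA 1, cA 2, cA 3, cA 4, cA 5, cA 6, cA 7, cB 1, cB 2, cB 3, cB 4,
    cB 5, cB 6, cB 7, N1 (cB 7)] : List Zs).getD n z, rfl, ?_, ?_⟩
  · show N1 (cB 7) = tick cc cx ty p r z
    rw [hC7]
    rfl
  · have hm : cB 0 = cA 7 := by rw [hC0, hA7]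
    intro j
    fin_cases j
    · exact hs0
    · exact hA 0
    · exact hA 1
    · exact hA 2
    · exact hA 3
    · exact hA 4
    · exact hA 5
    · exact hA 6
    · have := hC 0
      obtain ⟨ζ, h0, h1, h2⟩ := this
      exact ⟨ζ, h0.trans hm, h1, h2⟩
    · exact hC 1
    · exact hC 2
    · exact hC 3
    · exact hC 4
    · exact hC 5
    · exact hC 6
    · exact hs15

end Pool.Agent.Y203.QC
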